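import Pool.Agent.MPbe00aa.AllLevels

/-!
At every level `Γ` among `Σ⁰_k`, `Π⁰_k` (`k ≥ 3`) and `Σ¹₁` there is a class of structures whose
isomorphism problem is properly at level `Γ` but not `Γ`-complete.
-/

namespace Pool.Agent.Results.MP_be00aa_lc.EveryLevel

open Pool.Agent.MPbe00aa

/-- For every level `Γ` among `Σ¹₁`, `Σ⁰_k` and `Π⁰_k` with `k ≥ 3` there are a computable
language and a class `K` of structures for it, closed under isomorphism, such that `E(K)` is
properly at level `Γ` but is not `Γ`-complete. -/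
theorem result : ∀ Γ : Level,
    (Γ = Level.sigma11 ∨ ∃ k, 3 ≤ k ∧ (Γ = Level.sigma k ∨ Γ = Level.pi k)) →
    ∃ ar : ℕ → ℕ, Computable ar ∧ ∃ K : Set (OStr ar), IsoClosed K ∧
      ProperlyAt Γ (isoProblem K) ∧ ¬ IsComplete Γ (isoProblem K) := by
  intro Γ hΓ
  have hgood : GoodLevel Γ := by
    rcases hΓ with rfl | ⟨k, hk, rfl | rfl⟩
    · exact goodLevel_sigma11
    · obtain ⟨l, rfl⟩ := Nat.exists_eq_add_of_le' hk
      exact goodLevel_sigma l
    · obtain ⟨l, rfl⟩ := Nat.exists_eq_add_of_le' hk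
      exact goodLevel_pi l
  obtain ⟨K, h1, h2, h3⟩ := main_level Γ hgood
  refine ⟨ar1, Computable.const 1, K, h1, h2, ?_⟩
  rintro ⟨-, h⟩
  refine h3 (h _ ?_)
  exact hgood.arith ((univ_arith 1).comp (f := fun e : ℕ => (e, e))
    (Computable.id.pair Computable.id))

end Pool.Agent.Results.MP_be00aa_lc.EveryLevel
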