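import Pool.Agent.MPbe00aa.IsoPi3

/-!
The isomorphism problem of a class of structures can be properly `Π⁰₃` without being
`Π⁰₃`-complete, even for a class with a `Π⁰₂` index set.
-/

namespace Pool.Agent.Results.MP_be00aa_lc.PiThree

open Pool.Agent.MPbe00aa

/-- There are a computable language and a class `K` of structures for it, closed under
isomorphism and with a `Π⁰₂` index set, such that the isomorphism problem `E(K)` is properly at
level `Π⁰₃` but is not `Π⁰₃`-complete. -/
theorem result : ∃ ar : ℕ → ℕ, Computable ar ∧ ∃ K : Set (OStr ar),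
    IsoClosed K ∧ (Level.pi 2).Mem (indexSet K) ∧
    ProperlyAt (Level.pi 3) (isoProblem K) ∧ ¬ IsComplete (Level.pi 3) (isoProblem K) := by
  refine ⟨ar1, Computable.const 1, ClassK, isoClosed_K, indexSet_arith,
    ⟨isoProblem_arith, ?_⟩, ?_⟩
  · rintro ⟨-, h⟩
    exact isoProblem_not_arith (Arith.of_not h)
  · rintro ⟨-, h⟩
    exact isoProblem_incomplete (h _ S1_arith)

end Pool.Agent.Results.MP_be00aa_lc.PiThree
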